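import Pool.Agent.H559R4.Main2
import Pool.Agent.H559R5.Dual

/-!
# OR-distillation and AND-distillation by circuits with few non-monotone gates
-/

namespace Pool.Agent.H559R6

open Filter Pool.Agent.H559R4 Pool.Agent.H559R5 Pool.Agent.H520R2 Pool.Agent.H520R2.NM

/-- The dual of a function on graphs. -/
def dualG {W : Type*} (f : SimpleGraph W → Bool) : SimpleGraph W → Bool := fun G => !(f Gᶜ)

theorem dualG_GB {W : Type*} (f : SimpleGraph W → Bool) (hf : f ∈ GB W) : dualG f ∈ GB W := by
  classical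
  rcases hf with ⟨b, rfl⟩ | ⟨u, v, rfl⟩
  · exact Or.inl ⟨!b, rfl⟩
  · by_cases huv : u = v
    · subst huv
      left
      refine ⟨true, ?_⟩
      funext G
      simp [dualG, adjFn]
    · right
      refine ⟨u, v, ?_⟩
      funext G
      by_cases h : G.Adj u v <;> simp [dualG, adjFn, SimpleGraph.compl_adj, huv, h]

theorem dualG_prog {W : Type*} {L : List (SimpleGraph W → Bool)} (h : MProg (GB W) L) :
    MProg (GB W) (L.map dualG) := by
  have hav : ∀ {L : List (SimpleGraph W → Bool)} {f : SimpleGraph W → Bool},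
      (f ∈ GB W ∨ f ∈ L) → (dualG f ∈ GB W ∨ dualG f ∈ L.map dualG) := by
    intro L f hf
    rcases hf with hf | hf
    · exact Or.inl (dualG_GB f hf)
    · exact Or.inr (List.mem_map_of_mem hf)
  induction h with
  | nil => exact MProg.nil
  | @and L f g _ hf hg ih =>
    have h1 : dualG (fun x => f x && g x) = fun x => dualG f x || dualG g x := by
      funext x
      simp [dualG, Bool.not_and]
    rw [List.map_cons, h1]
    exact MProg.or ih (hav hf) (hav hg)
  | @or L f g _ hf hg ih =>
    have h1 : dualG (fun x => f x || g x) = fun x => dualG f x && dualG g x := by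
      funext x
      simp [dualG, Bool.not_or]
    rw [List.map_cons, h1]
    exact MProg.and ih (hav hf) (hav hg)

theorem dualG_comp {W : Type*} {s : ℕ} {f : SimpleGraph W → Bool} (h : MComp (GB W) s f) :
    MComp (GB W) s (dualG f) := by
  obtain ⟨L, hL, hs, hf⟩ := h
  refine ⟨L.map dualG, dualG_prog hL, by simpa using hs, ?_⟩
  rcases hf with hf | hf
  · exact Or.inl (dualG_GB f hf)
  · exact Or.inr (List.mem_map_of_mem hf)

/-- The lower bound with all its parameters. -/
theorem dist_lower {κ b n M t m N : ℕ} (hκ : 2 ≤ κ) (hb : 2 ≤ b) (hn : (κ + 1) * b ≤ n)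
    (hM : ((κ + 1) * 2 ^ b) ^ 2 ≤ M) (D : Circuit (Fin t × Fin M × Fin n × Bool) N)
    (out : Fin m → Wire (Fin t × Fin M × Fin n × Bool) N) (R : Set (Fin m → Bool))
    (hD : (∀ φ : Fin t × Fin M × Fin n × Bool → Bool,
      (fun j => (out j).eval φ (D.vals φ)) ∈ R ↔ ∃ i, Sat (fun l => φ (i, l))) ∨
      (∀ φ : Fin t × Fin M × Fin n × Bool → Bool,
      (fun j => (out j).eval φ (D.vals φ)) ∈ R ↔ ∀ i, Sat (fun l => φ (i, l))))
    (ht : (m + 1) * (D.fanins.map (· + 1)).prod ≤ t) :
    2 ^ ((κ + 1) * b) / apx2 κ b ^ 2 ≤ D.size + D.fanins.sum + m := by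
  classical
  by_contra hcon
  push Not at hcon
  have eb : Fin (2 ^ b) ≃ (Fin b → Bool) := Fintype.equivOfCardEq (by simp)
  have er : Fin 1 ≃ (Fin 0 → Bool) := Fintype.equivOfCardEq (by simp)
  obtain ⟨vr⟩ : Nonempty ((Fin (κ + 1) × Fin b) ⊕ Fin 0 ↪ Fin n) :=
    Function.Embedding.nonempty_of_card_le (by simpa using hn)
  obtain ⟨ψ⟩ : Nonempty (Fin 1 × (Fin (κ + 1) × Fin (2 ^ b)) × (Fin (κ + 1) × Fin (2 ^ b)) ↪
      Fin M) :=
    Function.Embedding.nonempty_of_card_le (by
      simp only [Fintype.card_prod, Fintype.card_fin, one_mul]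
      rw [sq] at hM
      exact hM)
  have hn0 : 0 < n := by
    have : 0 < (κ + 1) * b := Nat.mul_pos (by omega) (by omega)
    omega
  set enc : SimpleGraph (Fin (κ + 1) × Fin (2 ^ b)) → (Fin M × Fin n × Bool → Bool) :=
    fun G => encF eb er vr ψ (fun _ => G) with henc
  have hencsat : ∀ G, Sat (enc G) ↔ Tcl G := by
    intro G
    rw [henc]
    simp only
    rw [encF_sat eb er vr ψ _ hn0]
    exact ⟨fun ⟨_, h⟩ => h, fun h => ⟨0, h⟩⟩
  have hencmono : ∀ G G', G ≤ G' → enc G ≤ enc G' := fun G G' h =>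
    encF_mono eb er vr ψ _ _ (fun _ => h)
  have hencbase : ∀ f ∈ VB (Fin M × Fin n × Bool), f ∘ enc ∈
      GB (Fin (κ + 1) × Fin (2 ^ b)) := by
    intro f hf
    have h := encF_base eb er vr ψ (fun _ => ⊥) 0 f hf
    convert h using 2
    funext G
    rw [henc]
    simp only
    congr 1
    funext i
    rw [Subsingleton.elim i 0, Function.update_self]
  let C : Circuit (Fin t × Fin M × Fin n × Bool) (N + 1) :=
    D.any m 1 (fun bits _ => decide (bits ∈ R)) out
  have hsizeC : C.size + C.fanins.sum = D.size + D.fanins.sum + m := by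
    simp only [C, Circuit.size, Circuit.fanins, List.sum_cons]
    omega
  have heval : ∀ φ : Fin t × Fin M × Fin n × Bool → Bool,
      (Wire.gate (Fin.last N) : Wire (Fin t × Fin M × Fin n × Bool) (N + 1)).eval φ (C.vals φ) =
      decide ((fun j => (out j).eval φ (D.vals φ)) ∈ R) := by
    intro φ
    have h2 : Fin.last N = Fin.natAdd N (0 : Fin 1) := by
      ext
      simp
    simp only [Wire.eval, C, Circuit.vals]
    rw [h2, Fin.append_right]
  rcases hD with hD | hD
  · have h := chain_gen (Y := SimpleGraph (Fin (κ + 1) × Fin (2 ^ b))) Tcl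
      (not_tcl_bot (by omega)) (GB (Fin (κ + 1) × Fin (2 ^ b)))
      (2 ^ ((κ + 1) * b) / apx2 κ b ^ 2)
      (fun s f hf hfT => tcl_lowerR hκ hb f hf hfT) (m := t)
      (fun y l => enc (y l.1) l.2) (fun y y' hy l => hencmono _ _ (hy l.1) l.2)
      (by
        rintro y J f (⟨c, rfl⟩ | ⟨⟨i, l⟩, rfl⟩)
        · exact Or.inl ⟨c, rfl⟩
        · by_cases hi : i = J
          · subst hi
            have h1 := hencbase (fun x => x l) (Or.inr ⟨l, rfl⟩)
            convert h1 using 1
            funext G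
            simp only [Function.comp, Function.update_self]
          · left
            refine ⟨enc (y i) l, ?_⟩
            funext G
            simp only [Function.comp, Function.update_of_ne hi])
      C (Wire.gate (Fin.last N))
      (fun y => by
        rw [heval, decide_eq_true_iff, hD]
        simp only [hencsat]) (by
        rw [hsizeC]
        exact hcon)
    simp only [C, Circuit.fanins, List.map_cons, List.prod_cons] at h
    omega
  · have h := chain_gen (Y := SimpleGraph (Fin (κ + 1) × Fin (2 ^ b))) (fun G => ¬ Tcl Gᶜ)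
      (by
        rw [not_not, compl_bot]
        refine ⟨fun _ => ⟨0, by positivity⟩, fun i j hij => ?_⟩
        rw [SimpleGraph.top_adj]
        intro h
        exact hij.ne (congrArg Prod.fst h)) (GB (Fin (κ + 1) × Fin (2 ^ b)))
      (2 ^ ((κ + 1) * b) / apx2 κ b ^ 2)
      (fun s f hf hfT => tcl_lowerR hκ hb (dualG f) (dualG_comp hf) (fun G => by
        unfold dualG
        rw [Bool.not_eq_true', ← Bool.not_eq_true, hfT, not_not, compl_compl])) (m := t)
      (fun y l => !(enc (y l.1)ᶜ l.2)) (fun y y' hy l => by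
        have h1 : enc (y' l.1)ᶜ l.2 ≤ enc (y l.1)ᶜ l.2 :=
          hencmono _ _ (compl_le_compl (hy l.1)) l.2
        have h2 : ∀ A B : Bool, B ≤ A → (!A) ≤ (!B) := by decide
        exact h2 _ _ h1)
      (by
        rintro y J f (⟨c, rfl⟩ | ⟨⟨i, l⟩, rfl⟩)
        · exact Or.inl ⟨c, rfl⟩
        · by_cases hi : i = J
          · subst hi
            have h1 := dualG_GB _ (hencbase (fun x => x l) (Or.inr ⟨l, rfl⟩))
            convert h1 using 1
            funext G
            simp only [Function.comp, Function.update_self, dualG]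
          · left
            refine ⟨!(enc (y i)ᶜ l), ?_⟩
            funext G
            simp only [Function.comp, Function.update_of_ne hi])
      (dualC C) (dualW (Wire.gate (Fin.last N)))
      (fun y => by
        have h1 := dual_eval C (Wire.gate (Fin.last N)) (fun l => enc (y l.1)ᶜ l.2)
        rw [h1, heval, Bool.not_eq_true', decide_eq_false_iff_not, hD]
        simp only [hencsat, not_forall]) (by
        rw [dualC_size, dualC_fanins, hsizeC]
        exact hcon)
    rw [dualC_fanins] at h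
    simp only [C, Circuit.fanins, List.map_cons, List.prod_cons] at h
    omega

theorem dist_aux (δ : ℝ) (hδ : 0 < δ) (hδ1 : δ < 1) : ∃ c : ℕ, ∀ᶠ n : ℕ in atTop,
    ∀ {M t m N : ℕ} (D : Circuit (Fin t × Fin M × Fin n × Bool) N)
      (out : Fin m → Wire (Fin t × Fin M × Fin n × Bool) N) (R : Set (Fin m → Bool)),
      ((∀ φ : Fin t × Fin M × Fin n × Bool → Bool,
        (fun j => (out j).eval φ (D.vals φ)) ∈ R ↔ ∃ i, Sat (fun l => φ (i, l))) ∨
      (∀ φ : Fin t × Fin M × Fin n × Bool → Bool,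
        (fun j => (out j).eval φ (D.vals φ)) ∈ R ↔ ∀ i, Sat (fun l => φ (i, l)))) →
      n ^ c ≤ M → (m + 1) * (D.fanins.map (· + 1)).prod ≤ t →
      (2 : ℝ) ^ ((1 - δ) * n) ≤ ((D.size + D.fanins.sum + m : ℕ) : ℝ) := by
  obtain ⟨c, hc⟩ := params2 δ hδ hδ1
  refine ⟨c, ?_⟩
  filter_upwards [hc, eventually_ge_atTop 1] with n hn hn1
  intro M t m N D out R hD hM ht
  have hn0 : (0 : ℝ) < n := by exact_mod_cast hn1
  have h1 : (1 : ℝ) < 2 ^ ((1 - δ) * n) := by
    apply Real.one_lt_rpow (by norm_num)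
    exact mul_pos (by linarith) hn0
  obtain ⟨κ, b, h1, h2, h3, h4, h5⟩ := hn 1 le_rfl (by exact_mod_cast h1)
  simp only [Nat.clog_one_right, pow_zero, one_mul, mul_one, add_zero] at h3 h4 h5
  have h6 := h5 _ (dist_lower h1 h2 h3 (h4.trans hM) D out R hD ht)
  simpa using h6

theorem dist_main (δ : ℝ) (hδ : 0 < δ) : ∃ c : ℕ, ∀ᶠ n : ℕ in atTop,
    ∀ {M t m N : ℕ} (D : Circuit (Fin t × Fin M × Fin n × Bool) N)
      (out : Fin m → Wire (Fin t × Fin M × Fin n × Bool) N) (R : Set (Fin m → Bool)),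
      ((∀ φ : Fin t × Fin M × Fin n × Bool → Bool,
        (fun j => (out j).eval φ (D.vals φ)) ∈ R ↔ ∃ i, Sat (fun l => φ (i, l))) ∨
      (∀ φ : Fin t × Fin M × Fin n × Bool → Bool,
        (fun j => (out j).eval φ (D.vals φ)) ∈ R ↔ ∀ i, Sat (fun l => φ (i, l)))) →
      n ^ c ≤ M → (m + 1) * (D.fanins.map (· + 1)).prod ≤ t →
      (2 : ℝ) ^ ((1 - δ) * n) ≤ ((D.size + D.fanins.sum + m : ℕ) : ℝ) := by
  obtain ⟨c, hc⟩ := dist_aux (min δ (1 / 2)) (by positivity)
    (lt_of_le_of_lt (min_le_right _ _) (by norm_num))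
  refine ⟨c, ?_⟩
  filter_upwards [hc] with n hn
  intro M t m N D out R hD hM ht
  refine le_trans ?_ (hn D out R hD hM ht)
  apply Real.rpow_le_rpow_of_exponent_le (by norm_num)
  apply mul_le_mul_of_nonneg_right _ (Nat.cast_nonneg _)
  have := min_le_left δ (1 / 2)
  linarith

end Pool.Agent.H559R6
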